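import Pool.Agent.Lib.MP_b26fee_pr.Both

namespace Pool.Agent.Results.MP_b26fee_pr.ProfileCounterexample

open Pool.Agent.Lib.MP_b26fee_pr Filter Topology

theorem result :
    ∃ (N : ℕ → ℕ) (f : ∀ n, (Fin (N n) → Bool) → Bool),
      Tendsto N atTop atTop ∧ (∀ n, Monotone (f n)) ∧ (∀ n, 1 / 4 ≤ var (sgn (f n))) ∧
      (∀ ε ∈ Set.Ioo (0 : ℝ) 1, Tendsto (fun n => noiseCov (sgn (f n)) ε) atTop (𝓝 0)) ∧
      ∀ δ ∈ Set.Ioo (0 : ℝ) 1,
        Tendsto (fun n => bern δ (clue (sgn (f n))) / cp (sgn (f n)) δ) atTop atTop :=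
  both_readings.1

end Pool.Agent.Results.MP_b26fee_pr.ProfileCounterexample
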