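import Pool.Agent.Lib.MP_b26fee_pr.InvB

namespace Pool.Agent.Results.MP_b26fee_pr.TransitiveOptimal

open Pool.Agent.Lib.MP_b26fee_pr Filter Topology

theorem result (G : ℕ → Type) [∀ n, Group (G n)] [∀ n, Fintype (G n)] [∀ n, DecidableEq (G n)]
    (hG : Tendsto (fun n => Fintype.card (G n)) atTop atTop) :
    ∃ f : ∀ n, (G n → Bool) → Bool,
      (∀ n, Monotone (f n)) ∧ (∀ n (g : G n) ω, f n (fun x => ω (g * x)) = f n ω) ∧
      (∀ᶠ n in atTop, 1 / 4 ≤ var (sgn (f n))) ∧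
      (∀ ε ∈ Set.Ioo (0 : ℝ) 1, Tendsto (fun n => noiseCov (sgn (f n)) ε) atTop (𝓝 0)) ∧
      ∀ δ ∈ Set.Ioo (0 : ℝ) 1, ∀ η : ℝ, 0 < η → ∀ᶠ n in atTop, 0 < bern δ (clue (sgn (f n))) ∧
        ∀ U : Finset (G n), (U.card : ℝ) ≤ δ * Fintype.card (G n) →
          clue (sgn (f n)) U ≤
            (U.card / (δ * Fintype.card (G n)) + η) * bern δ (clue (sgn (f n))) :=
  invariant_optimal G hG

/-- The case of cyclic groups: the best sets of density `δ` are no better than random ones. -/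
theorem cyclic_case :
    ∃ f : ∀ n : ℕ, (Multiplicative (ZMod (n + 1)) → Bool) → Bool,
      (∀ n, Monotone (f n)) ∧ (∀ n g ω, f n (fun x => ω (g * x)) = f n ω) ∧
      (∀ᶠ n in atTop, 1 / 4 ≤ var (sgn (f n))) ∧
      (∀ ε ∈ Set.Ioo (0 : ℝ) 1, Tendsto (fun n => noiseCov (sgn (f n)) ε) atTop (𝓝 0)) ∧
      ∀ δ ∈ Set.Ioo (0 : ℝ) 1, ∀ η : ℝ, 0 < η → ∀ᶠ n in atTop, 0 < bern δ (clue (sgn (f n))) ∧
        ∀ U : Finset (Multiplicative (ZMod (n + 1))), (U.card : ℝ) ≤ δ * (n + 1) →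
          clue (sgn (f n)) U ≤ (1 + η) * bern δ (clue (sgn (f n))) := by
  obtain ⟨f, h1, h2, h3, h4, h5⟩ := result (fun n => Multiplicative (ZMod (n + 1))) (by
    simpa using tendsto_add_atTop_nat 1)
  refine ⟨f, h1, h2, h3, h4, fun δ hδ η hη => (h5 δ hδ η hη).mono fun n hn =>
    ⟨hn.1, fun U hU => ?_⟩⟩
  have h6 : (Fintype.card (Multiplicative (ZMod (n + 1))) : ℝ) = n + 1 := by simp
  have h7 := hδ.1
  refine (hn.2 U (h6 ▸ hU)).trans (mul_le_mul_of_nonneg_right ?_ hn.1.le)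
  rw [h6]
  exact add_le_add_left ((div_le_one (by positivity)).2 hU) η

end Pool.Agent.Results.MP_b26fee_pr.TransitiveOptimal
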